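import Pool.Agent.Lib.MP_8f9d9d_nt.H74Rk7

namespace Pool.Agent.Results.MP_8f9d9d_nt.AxSchanuel

open scoped PowerSeries LaurentSeries
open Pool.Agent.Lib.MP_8f9d9d_nt

/-- The Ax-Schanuel inequality for the pairs `(q, J q)` in characteristic `p`. -/
theorem result (p : ℕ) [Fact p.Prime] (k : Type) [Field k] [IsAlgClosed k] [CharP k p]
    (E4 E6 Δ : ℤ⟦X⟧)
    (h4 : E4 = 1 + 240 * PowerSeries.mk fun n => ((ArithmeticFunction.sigma 3 n : ℕ) : ℤ))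
    (h6 : E6 = 1 - 504 * PowerSeries.mk fun n => ((ArithmeticFunction.sigma 5 n : ℕ) : ℤ))
    (hΔ : 1728 * Δ = E4 ^ 3 - E6 ^ 2) (J : k⟦X⟧ → k⸨X⸩)
    (hJ : ∀ q : k⟦X⟧, J q = ((E4.subst q : k⟦X⟧) : k⸨X⸩) ^ 3 / ((Δ.subst q : k⟦X⟧) : k⸨X⸩))
    (n : ℕ) (hn : 0 < n) (q : Fin n → k⟦X⟧) (h0 : ∀ i, q i ≠ 0)
    (hc : ∀ i, PowerSeries.constantCoeff (q i) = 0)
    (h : Algebra.trdeg k (IntermediateField.adjoin k
      (Set.range (fun i => (q i : k⸨X⸩)) ∪ Set.range fun i => J (q i))) ≤ n) :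
    (∃ m : Fin n → ℤ, m ≠ 0 ∧ ∃ η : k, ∏ i, (q i : k⸨X⸩) ^ m i = algebraMap k k⸨X⸩ η) ∧
    ∃ i i' : Fin n, i ≠ i' ∧ ¬AlgebraicIndependent k ![J (q i), J (q i')] := by
  have e4 : E4 = H53.E4z := h4
  have e6 : E6 = H53.E6z := h6
  have eD : Δ = H53.Dz := by
    have : (1728 : ℤ⟦X⟧) ≠ 0 := by
      intro h0
      have := congrArg PowerSeries.constantCoeff h0
      rw [map_ofNat, map_zero] at this
      exact absurd this (by norm_num)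
    exact mul_left_cancel₀ this (by rw [hΔ, H53.Dz_eq, e4, e6])
  obtain rfl : J = H53.JJ k⸨X⸩ := funext fun q => by rw [hJ, e4, eD]; rfl
  have : @IsScalarTower k k⟦X⟧ k⸨X⸩ Algebra.toSMul Algebra.toSMul Algebra.toSMul :=
    IsScalarTower.of_algebraMap_eq fun _ => rfl
  exact H74.as_n p k⸨X⸩ hn h0 hc _ h
    (fun i => IntermediateField.subset_adjoin k _ (.inl ⟨i, rfl⟩))
    fun i => IntermediateField.subset_adjoin k _ (.inr ⟨i, rfl⟩)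

end Pool.Agent.Results.MP_8f9d9d_nt.AxSchanuel
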