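import Pool.Agent.Lib.MP_8f9d9d_nt.H27Zeta
import Pool.Agent.Lib.MP_8f9d9d_nt.H74Rk7

namespace Pool.Agent.Results.MP_8f9d9d_nt.CharPMany

open scoped PowerSeries LaurentSeries Polynomial UpperHalfPlane
open Pool.Agent.Lib.MP_8f9d9d_nt Pool.Agent.Lib.MP_8f9d9d_nt.H53

/-- The analogue in characteristic `p` of Bertrand's conjecture for any number of points. -/
theorem result (p : ℕ) [Fact p.Prime] (k : Type) [Field k] [IsAlgClosed k] [CharP k p]
    (E4 E6 Δ : ℤ⟦X⟧)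
    (h4 : E4 = 1 + 240 * PowerSeries.mk fun n => ((ArithmeticFunction.sigma 3 n : ℕ) : ℤ))
    (h6 : E6 = 1 - 504 * PowerSeries.mk fun n => ((ArithmeticFunction.sigma 5 n : ℕ) : ℤ))
    (hΔ : 1728 * Δ = E4 ^ 3 - E6 ^ 2) (J : k⟦X⟧ → k⸨X⸩)
    (hJ : ∀ q : k⟦X⟧, J q = ((E4.subst q : k⟦X⟧) : k⸨X⸩) ^ 3 / ((Δ.subst q : k⟦X⟧) : k⸨X⸩))
    (j : ℂ → ℂ) (hj : ∀ τ : ℍ, j τ = ModularForm.E₄ τ ^ 3 / ModularForm.discriminant τ)
    (Φ : ℕ → MvPolynomial (Fin 2) ℤ)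
    (hΦ : ∀ s : ℕ, 0 < s → ∀ τ : ℂ, 0 < τ.im → ∀ x : ℂ, MvPolynomial.aeval ![x, j τ] (Φ s) =
      ∏ c ∈ s.divisorsAntidiagonal,
        ∏ b ∈ (Finset.range c.2).filter (fun b => Nat.gcd (Nat.gcd c.1 b) c.2 = 1),
          (x - j ((c.1 * τ + b) / c.2)))
    (n : ℕ) (q : Fin n → k⟦X⟧) (h0 : ∀ i, q i ≠ 0)
    (hc : ∀ i, PowerSeries.constantCoeff (q i) = 0) (ha : ∀ i, IsAlgebraic k[X] (q i))
    (h : ¬AlgebraicIndependent k[X] fun i => J (q i)) :
    ∃ i i' : Fin n, i < i' ∧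
      (∃ s : ℕ, 0 < s ∧
        MvPolynomial.aeval ![J (q i), J (q i')] (MvPolynomial.map (Int.castRingHom k[X]) (Φ s)) = 0 ∧
        ∀ P : MvPolynomial (Fin 2) k[X], Irreducible P →
          MvPolynomial.aeval ![J (q i), J (q i')] P = 0 →
          P ∣ MvPolynomial.map (Int.castRingHom k[X]) (Φ s)) ∧
      ∃ a b : ℤ, (a ≠ 0 ∨ b ≠ 0) ∧ (q i : k⸨X⸩) ^ a * (q i' : k⸨X⸩) ^ b = 1 := by
  classical
  have e4 : E4 = E4z := h4
  have e6 : E6 = E6z := h6
  have eD : Δ = Dz := by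
    have : (1728 : ℤ⟦X⟧) ≠ 0 := by
      intro h0
      have := congrArg PowerSeries.constantCoeff h0
      rw [map_ofNat, map_zero] at this
      exact absurd this (by norm_num)
    exact mul_left_cancel₀ this (by rw [hΔ, Dz_eq, e4, e6])
  obtain rfl : J = JJ k⸨X⸩ := funext fun q => by rw [hJ, e4, eD]; rfl
  have : @IsScalarTower k k⟦X⟧ k⸨X⸩ Algebra.toSMul Algebra.toSMul Algebra.toSMul :=
    IsScalarTower.of_algebraMap_eq fun _ => rfl
  have : @IsScalarTower k[X] k⟦X⟧ k⸨X⸩ Algebra.toSMul Algebra.toSMul Algebra.toSMul :=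
    IsScalarTower.of_algebraMap_eq fun _ => rfl
  let : Algebra (ZMod p) k := ZMod.algebra k p
  have : CharP k⸨X⸩ p := charP_of_injective_algebraMap (algebraMap k k⸨X⸩).injective p
  have inj : Function.Injective (algebraMap k[X] k⸨X⸩) := FaithfulSMul.algebraMap_injective _ _
  have hn : 0 < n := by
    refine Nat.pos_of_ne_zero fun h1 => h ?_
    subst h1
    exact algebraicIndependent_empty_type_iff.2 inj
  set t : k⸨X⸩ := algebraMap k⟦X⟧ k⸨X⸩ PowerSeries.X with ht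
  obtain ⟨M, hM, hM'⟩ := H27.small_field (k := k)
    (Sum.elim (fun i => JJ k⸨X⸩ (q i)) fun _ : Unit => t) fun H => h (by
      have H2 := (AlgebraicIndependent.sumElim_iff.1 H).2
      let f : k[X] →ₐ[k] Algebra.adjoin k (Set.range fun _ : Unit => t) :=
        Polynomial.aeval ⟨t, Algebra.subset_adjoin ⟨(), rfl⟩⟩
      have hf : RingHom.comp (algebraMap _ k⸨X⸩) f.toRingHom = algebraMap k[X] k⸨X⸩ := by
        refine Polynomial.ringHom_ext (fun c => ?_) ?_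
        · simp only [f, RingHom.comp_apply, AlgHom.toRingHom_eq_coe, RingHom.coe_coe,
            Polynomial.aeval_C, ← IsScalarTower.algebraMap_apply]
          change algebraMap k⟦X⟧ k⸨X⸩ (algebraMap k k⟦X⟧ c) =
            algebraMap k⟦X⟧ k⸨X⸩ ((Polynomial.C c : k[X]) : k⟦X⟧)
          rw [Polynomial.coe_C]
          rfl
        · simp only [f, RingHom.comp_apply, AlgHom.toRingHom_eq_coe, RingHom.coe_coe,
            Polynomial.aeval_X]
          change t = algebraMap k⟦X⟧ k⸨X⸩ ((Polynomial.X : k[X]) : k⟦X⟧)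
          rw [Polynomial.coe_X]
      exact AlgebraicIndependent.of_ringHom_of_comp_eq f.toRingHom (RingHom.id _) H2
        (Function.Injective.of_comp (f := algebraMap _ k⸨X⸩) (by
          rw [← RingHom.coe_comp, hf]; exact inj)) (hf.trans (RingHom.id_comp _).symm))
  obtain ⟨i, i', hi, hd⟩ : ∃ i i' : Fin n, i < i' ∧
      ¬AlgebraicIndependent k ![JJ k⸨X⸩ (q i), JJ k⸨X⸩ (q i')] := by
    obtain ⟨-, i, i', hi, hd⟩ := H74.as_n p k⸨X⸩ hn h0 hc M hM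
      (fun i => hM' _ (alg_trans (fun y hy => alg_of_mem
        (IntermediateField.adjoin_simple_le_iff.2
          (IntermediateField.subset_adjoin k _ (Set.mem_range.2 ⟨Sum.inr (), rfl⟩)) hy))
        (main_aux_alg k⸨X⸩ (ha i))))
      fun i => hM' _ (alg_of_mem (IntermediateField.subset_adjoin k _ ⟨.inl i, rfl⟩))
    rcases lt_or_gt_of_ne hi with h1 | h1
    · exact ⟨i, i', h1, hd⟩
    · refine ⟨i', i, h1, fun H => hd ?_⟩
      have e : ![JJ k⸨X⸩ (q i), JJ k⸨X⸩ (q i')] =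
          ![JJ k⸨X⸩ (q i'), JJ k⸨X⸩ (q i)] ∘ Equiv.swap 0 1 := by
        funext x
        fin_cases x <;> rfl
      rw [e]
      exact H.comp _ (Equiv.injective _)
  rw [algebraicIndependent_iff] at hd
  push Not at hd
  obtain ⟨R, hR, R0⟩ := hd
  obtain ⟨a, b, ζ, s₀, ha', hb, hζ, e1, e2, e3⟩ := main_gen p k⸨X⸩ (h0 i) (hc i) (h0 i') (hc i')
    (ha i) (ha i') 1 (fun _ => R) ⟨0, one_pos, R0⟩ (by simpa using hR)
  obtain ⟨r, hr, hζr⟩ := H27.root_of_unity' p hζ (H27.zeta_alg p k⸨X⸩ hζ ha' hb R0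
    (e3 PowerSeries.X PowerSeries.X_ne_zero PowerSeries.constantCoeff_X 0 one_pos))
  have hs0 : s₀ ≠ 0 := fun h1 => h0 i' (by rw [e2, h1, zero_pow hb.ne'])
  have cs0 : PowerSeries.constantCoeff s₀ = 0 := by
    have c2 := hc i'
    rw [e2, map_pow] at c2
    exact pow_eq_zero_iff hb.ne' |>.1 c2
  refine ⟨i, i', hi, ?_, ?_⟩
  · obtain ⟨s, hs, hz⟩ := phi_zero j hj Φ hΦ k⸨X⸩ hr hζr ha' hb hs0 cs0
    rw [← e1, ← e2] at hz
    have hz' : MvPolynomial.aeval ![JJ k⸨X⸩ (q i), JJ k⸨X⸩ (q i')]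
        (MvPolynomial.map (Int.castRingHom k[X]) (Φ s)) = 0 := by
      rw [MvPolynomial.aeval_def, MvPolynomial.eval₂_map]
      have h1 : MvPolynomial.eval₂ (Int.castRingHom k⸨X⸩) ![JJ k⸨X⸩ (q i), JJ k⸨X⸩ (q i')]
        (Φ s) = 0 := hz
      exact (congrArg (fun f => MvPolynomial.eval₂ f _ (Φ s)) (RingHom.ext_int _ _)).trans h1
    exact ⟨s, hs, hz', fun P hP h1 =>
      dvd_of_rel inj (voloch p k⸨X⸩ (h0 i) (hc i) (ha i)) hP h1 hz'⟩
  · replace hζr := hζr.pow_eq_one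
    have e : q i ^ (r * b) = q i' ^ (r * a) := by
      rw [e1, e2, mul_pow, ← map_pow, pow_mul ζ, hζr, one_pow, map_one, one_mul, ← pow_mul,
        ← pow_mul]
      congr 1
      ring
    have n2 : (q i' : k⸨X⸩) ≠ 0 := fun h1 =>
      h0 i' (HahnSeries.ofPowerSeries_injective (h1.trans (map_zero _).symm))
    refine ⟨(r * b : ℕ), -(r * a : ℕ), .inl (by exact_mod_cast (Nat.mul_pos hr hb).ne'), ?_⟩
    rw [zpow_neg, zpow_natCast, zpow_natCast, ← map_pow, e, map_pow,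
      mul_inv_cancel₀ (pow_ne_zero _ n2)]

end Pool.Agent.Results.MP_8f9d9d_nt.CharPMany
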