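import Pool.Agent.Lib.MP_8f9d9d_nt.H56Count

namespace Pool.Agent.Results.MP_8f9d9d_nt.ModularCount

open scoped UpperHalfPlane
open Pool.Agent.Lib.MP_8f9d9d_nt.H56 Filter Complex

/-- Few pairs satisfy (i) and violate (ii), all levels being counted at once. -/
theorem result (j J : ℂ → ℂ)
    (hj : ∀ τ : ℍ, j τ = ModularForm.E₄ τ ^ 3 / ModularForm.discriminant τ)
    (hJ : ∀ τ : ℂ, 0 < τ.im → J (Complex.exp (2 * Real.pi * Complex.I * τ)) = j τ)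
    (Φ : ℕ → MvPolynomial (Fin 2) ℤ)
    (hΦ : ∀ s : ℕ, 0 < s → ∀ τ : ℂ, 0 < τ.im → ∀ x : ℂ, MvPolynomial.aeval ![x, j τ] (Φ s) =
      ∏ c ∈ s.divisorsAntidiagonal,
        ∏ b ∈ (Finset.range c.2).filter (fun b => Nat.gcd (Nat.gcd c.1 b) c.2 = 1),
          (x - j ((c.1 * τ + b) / c.2)))
    (d : ℕ) (ε : ℝ) (hε : 0 < ε) :
    ∃ H₀ : ℕ, ∀ H : ℕ, H₀ ≤ H → ∀ S : Finset (ℂ × ℂ),
      (∀ p ∈ S, (∀ q ∈ ({p.1, p.2} : Set ℂ), q ≠ 0 ∧ ‖q‖ < 1 ∧ IsAlgebraic ℚ q ∧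
          (minpoly ℚ q).natDegree ≤ d ∧ NumberField.absMulHeight₁ q ≤ H) ∧
        (∃ s : ℕ, 0 < s ∧ MvPolynomial.aeval ![J p.1, J p.2] (Φ s) = 0) ∧
        ¬∃ m n : ℤ, (m ≠ 0 ∨ n ≠ 0) ∧ p.1 ^ m * p.2 ^ n = 1) →
      (S.card : ℝ) ≤ (H : ℝ) ^ ε := by
  classical
  have t : Tendsto (fun y : ℕ => Real.log y) atTop atTop :=
    Real.tendsto_log_atTop.comp tendsto_natCast_atTop_atTop
  refine eventually_atTop.1 (((tendsto_pow_atTop d.succ_ne_zero).eventually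
    ((count d (ε := ε / (d + 1 : ℕ)) (by positivity)).and (t.eventually_ge_atTop Real.pi))).mono
      fun H ⟨h1, h2⟩ S hS => ?_)
  have k : ∀ p ∈ S, exp (log p.1) = p.1 ∧ exp (log p.2) = p.2 := fun p hp =>
    ⟨exp_log ((hS p hp).1 _ (.inl rfl)).1, exp_log ((hS p hp).1 _ (.inr rfl)).1⟩
  rw [← Finset.card_image_of_injOn (f := Prod.map log log) fun p hp p' hp' e => Prod.ext
    ((k p hp).1.symm.trans ((congrArg (exp ·.1) e).trans (k p' hp').1))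
    ((k p hp).2.symm.trans ((congrArg (exp ·.2) e).trans (k p' hp').2))]
  refine (h1 _ fun _ h => ?_).trans_eq ?_
  · obtain ⟨p, hp, rfl⟩ := Finset.mem_image.1 h
    obtain ⟨h3, ⟨s, hs, h4⟩, h5⟩ := hS p hp
    obtain ⟨a1, a2, a3, a4, a5⟩ := h3 _ (.inl rfl)
    obtain ⟨b1, b2, b3, b4, b5⟩ := h3 _ (.inr rfl)
    rw [← (k p hp).1, ← (k p hp).2] at h4 h5
    exact ⟨(con_of j J hj hJ (hΦ s hs) ((k p hp).1.symm ▸ a2) ((k p hp).2.symm ▸ b2)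
        h4).resolve_right h5,
      ⟨log_mem a1 (alg_of a3 a4 a5) h2, congrArg log (k p hp).1⟩,
      log_mem b1 (alg_of b3 b4 b5) h2, congrArg log (k p hp).2⟩
  · rw [Nat.cast_pow, ← Real.rpow_natCast, ← Real.rpow_mul (by positivity),
      mul_div_cancel₀ _ (by positivity)]

end Pool.Agent.Results.MP_8f9d9d_nt.ModularCount
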