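import Pool.Agent.Lib.MP_8f9d9d_nt.H39Main

namespace Pool.Agent.Results.MP_8f9d9d_nt.NearCusp

open Pool.Agent.Lib.MP_8f9d9d_nt

/-- Bertrand's conjecture, with a lower bound, for algebraic points that are close to the cusp
compared with the heights. -/
theorem result :
    ∀ (E4 E6 J : ℂ → ℂ),
      (∀ q : ℂ, E4 q = 1 + 240 * ∑' n : ℕ,
        ((ArithmeticFunction.sigma 3 (n + 1) : ℕ) : ℂ) * q ^ (n + 1)) →
      (∀ q : ℂ, E6 q = 1 - 504 * ∑' n : ℕ,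
        ((ArithmeticFunction.sigma 5 (n + 1) : ℕ) : ℂ) * q ^ (n + 1)) →
      (∀ q : ℂ, J q = 1728 * E4 q ^ 3 / (E4 q ^ 3 - E6 q ^ 2)) →
      ∀ (D : ℕ) (δ : ℝ), 0 < δ → ∃ c : ℕ, ∀ (K : Type) [Field K] [NumberField K] (φ : K →+* ℂ)
        (q1 q2 : K) (P : MvPolynomial (Fin 2) K), q1 ≠ 0 → q2 ≠ 0 → P ≠ 0 → P.totalDegree ≤ D →
        ‖φ q1‖ ≤ Real.exp (-(δ * Height.logHeight₁ q1 + c * Module.finrank ℚ K)) →
        ‖φ q2‖ ≤ Real.exp (-(δ * Height.logHeight₁ q2 + c * Module.finrank ℚ K)) →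
        (∀ β, max ‖φ q1‖ ‖φ q2‖ ≤
          Real.exp (-(δ * Height.logHeight₁ (P.coeff β) + c * Module.finrank ℚ K))) →
        ‖MvPolynomial.eval₂ φ ![J (φ q1), J (φ q2)] P‖ ≤ ‖φ q1 * φ q2‖ ^ c →
        (∃ s : ℕ, 0 < s ∧ ∀ q : ℂ, q ≠ 0 → ‖q‖ < 1 →
            MvPolynomial.eval₂ φ ![J q, J (q ^ s)] P = 0) ∧
          ∃ m n : ℤ, (m ≠ 0 ∨ n ≠ 0) ∧ q1 ^ m * q2 ^ n = 1 := by
  intro E4 E6 J h4 h6 hJ D δ hδ
  have e : ∀ z : ℂ, ‖z‖ < 1 → J z = Jf z := fun z hz => by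
    rw [hJ, h4, h6, Jf, e4, e6, ev_eis _ _ hz, ev_eis _ _ hz]
    push_cast
    ring
  obtain ⟨c, hc, h⟩ := main D δ hδ
  refine ⟨c, fun K _ _ φ q1 q2 P a1 a2 hP hD b1 b2 b3 b4 => ?_⟩
  have lt : ∀ x : K, Real.exp (-(δ * Height.logHeight₁ x + c * Module.finrank ℚ K)) < 1 :=
    fun x => by
      have := mul_nonneg hδ.le (Height.zero_le_logHeight₁ x)
      have : (0 : ℝ) < c * Module.finrank ℚ K := by
        exact_mod_cast Nat.mul_pos hc Module.finrank_pos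
      rw [Real.exp_lt_one_iff]
      linarith
  rw [e _ (b1.trans_lt (lt _)), e _ (b2.trans_lt (lt _))] at b4
  obtain ⟨⟨s, hs, h1⟩, a, b, ha, h2⟩ := h K φ ![q1, q2] P (Fin.forall_fin_two.2 ⟨a1, a2⟩) hP hD
    (Fin.forall_fin_two.2 ⟨b1, b2⟩) (Fin.forall_fin_two.2
      ⟨fun β => (le_max_left _ _).trans (b3 β), fun β => (le_max_right _ _).trans (b3 β)⟩) b4
  refine ⟨⟨s, hs, fun z hz hz' => ?_⟩, a, -b, .inl (by omega), ?_⟩
  · rw [e z hz', e _ (by rw [norm_pow]; exact pow_lt_one₀ (norm_nonneg _) hz' hs.ne')]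
    exact h1 z hz hz'
  · rw [zpow_neg, zpow_natCast, zpow_natCast, show q1 ^ a = q2 ^ b from h2,
      mul_inv_cancel₀ (pow_ne_zero _ a2)]

end Pool.Agent.Results.MP_8f9d9d_nt.NearCusp
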